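import Mathlib

namespace Pool.Agent.Results.MP_edde63_nt.Q1

open Filter Finset Nat

/-- Partitions of `n` with parts in `A` and multiplicities in `M`. -/
def Parts (A M : Set ℕ) (n : ℕ) : Set (ℕ →₀ ℕ) :=
  {m | (∀ a ∈ m.support, a ∈ A ∧ m a ∈ M) ∧ (m.sum fun a c => c * a) = n}

/-- The factorials `1!, 2!, ...`. -/
def Fact : Set ℕ := {a | ∃ k ≥ 1, a = k !}

def M : Set ℕ := {c | ∃ k j, 0 < j ∧ j < 2 * (k + 2) ∧ c = j * 2 ^ k}

lemma ex (K : ℕ) : ∀ r < 2 ^ K * (K + 1)!, ∃ m ∈ Parts Fact M r, ∀ a ∈ m.support, a < (K + 1)! := by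
  induction K with
  | zero => intro r h; exact ⟨0, ⟨by simp, by simp at h ⊢; omega⟩, by simp⟩
  | succ K ih =>
    intro r h
    have B0 : 0 < 2 ^ K * (K + 1)! := by positivity
    obtain ⟨m, ⟨p, q⟩, s⟩ := ih _ (Nat.mod_lt r B0)
    have lt : (K + 1)! < (K + 1 + 1)! := (factorial_lt (by omega)).2 (by omega)
    have z : m (K + 1)! = 0 := by
      by_contra h; exact (s _ (Finsupp.mem_support_iff.2 h)).false
    refine ⟨m + .single (K + 1)! (r / (2 ^ K * (K + 1)!) * 2 ^ K), ⟨fun a ha => ?_, ?_⟩, fun a ha => ?_⟩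
    · rw [Finsupp.mem_support_iff] at ha
      by_cases e : a = (K + 1)!
      · subst e
        simp only [Finsupp.add_apply, z, Finsupp.single_eq_same, zero_add] at ha ⊢
        refine ⟨⟨_, by omega, rfl⟩, K, _, Nat.pos_of_ne_zero fun h => ha (by simp [h]), ?_, rfl⟩
        rw [Nat.div_lt_iff_lt_mul B0]
        refine h.trans_eq ?_
        rw [factorial_succ (K + 1)]; ring
      · simp only [Finsupp.add_apply, Finsupp.single_eq_of_ne e, add_zero] at ha ⊢
        exact p a (Finsupp.mem_support_iff.2 ha)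
    · rw [Finsupp.sum_add_index' (by simp) (fun _ _ _ => add_mul _ _ _), q, Finsupp.sum_single_index (by simp),
        mul_assoc, Nat.mod_add_div']
    · rcases mem_union.1 (Finsupp.support_add ha) with h | h
      · exact (s a h).trans lt
      · rw [mem_singleton.1 (Finsupp.support_single_subset h)]; exact lt

lemma ff (K : ℕ) : K ^ K ≤ K ! ^ 2 := by
  calc K ^ K = ∏ _i ∈ range K, K := by simp
    _ ≤ ∏ i ∈ range K, (i + 1) * (K - 1 - i + 1) := prod_le_prod' fun i hi => by
        have := mem_range.1 hi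
        obtain ⟨d, rfl⟩ : ∃ d, K = i + 1 + d := ⟨K - (i + 1), by omega⟩
        rw [show i + 1 + d - 1 - i = d by omega]; nlinarith [Nat.zero_le (i * d)]
    _ = _ := by rw [prod_mul_distrib, prod_range_reflect (· + 1), prod_range_add_one_eq_factorial, sq]

theorem result : ∃ M : Set ℕ, M.Infinite ∧ 0 ∉ M ∧ (∀ n, 1 ≤ (Parts Fact M n).encard) ∧
    ∃ c : ℕ, ∀ᶠ n : ℕ in atTop, (Parts Fact M n).encard ≤ (n ^ c : ℕ) := by
  refine ⟨M, Set.infinite_of_injective_forall_mem (f := fun k => 2 ^ k) (Nat.pow_right_injective le_rfl)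
    fun k => ⟨k, 1, one_pos, by omega, by simp⟩, ?_, fun n => Set.one_le_encard_iff_nonempty.2 ?_,
    20, (eventually_ge_atTop 24).mono fun n hn => ?_⟩
  · rintro ⟨k, j, a, -, b⟩
    exact (show 0 < j * 2 ^ k by positivity).ne b
  · obtain ⟨m, h, -⟩ := ex n n (Nat.lt_two_pow_self.trans_le (Nat.le_mul_of_pos_right _ (factorial_pos _)))
    exact ⟨m, h⟩
  · obtain ⟨K, h1, h2⟩ : ∃ K, K ! ≤ n ∧ n < (K + 1)! := by
      have : ∃ K, n < (K + 1)! := ⟨n, (lt_succ_self n).trans_le (self_le_factorial _)⟩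
      refine ⟨Nat.find this, ?_, Nat.find_spec this⟩
      rcases e : Nat.find this with _ | k
      · simp; omega
      · exact not_lt.1 (Nat.find_min this (by omega))
    have K4 : 4 ≤ K := by
      by_contra h
      have : (K + 1)! ≤ 4 ! := factorial_le (by omega)
      simp [factorial] at this h2; omega
    set L := (K + 1) * (K + 1)
    have nL : n < 2 ^ L := h2.trans_le ((factorial_le_pow _).trans (by
      rw [pow_mul]; exact Nat.pow_le_pow_left Nat.lt_two_pow_self.le _))
    let T := (range L ×ˢ range (2 * (L + 2))).image fun p => p.2 * 2 ^ p.1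
    have sub : Parts Fact M n ⊆ ((range K).image fun k => (k + 1)!).finsupp fun _ => T := by
      rintro m ⟨p, q⟩
      have le (a) (h : a ∈ m.support) : m a * a ≤ n := q ▸ single_le_sum (f := fun a => m a * a) (by simp) h
      refine mem_coe.2 (mem_finsupp_iff.2 ⟨fun a h => ?_, fun a _ => ?_⟩)
      · obtain ⟨⟨k, k1, rfl⟩, -⟩ := p a h
        have := (Nat.le_mul_of_pos_left _ (Nat.pos_of_ne_zero (Finsupp.mem_support_iff.1 h))).trans (le _ h)
        have : k < K + 1 := (factorial_lt k1).1 (this.trans_lt h2)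
        exact mem_image.2 ⟨k - 1, mem_range.2 (by omega), by rw [Nat.sub_add_cancel k1]⟩
      · by_cases h : a ∈ m.support
        · obtain ⟨⟨i, -, rfl⟩, k, j, a, b, c⟩ := p a h
          have := (Nat.le_mul_of_pos_right _ (factorial_pos i)).trans (le _ h)
          have : k < L := (Nat.pow_lt_pow_iff_right one_lt_two).1
            (((Nat.le_mul_of_pos_left _ a).trans (c ▸ this)).trans_lt nL)
          exact mem_image.2 ⟨(k, j), by simp; omega, c.symm⟩
        · exact mem_image.2 ⟨(0, 0), by simp [L], by simpa [eq_comm] using h⟩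
    refine (Set.encard_le_encard sub).trans ?_
    rw [Set.encard_coe_eq_coe_finsetCard, Nat.cast_le, card_finsupp, prod_const]
    have t : #T ≤ K ^ 10 := by
      refine card_image_le.trans ?_
      have : L ≤ K ^ 3 := by simp only [L]; nlinarith [Nat.mul_le_mul K4 K4]
      have a : 64 ≤ K ^ 3 := Nat.pow_le_pow_left K4 3
      simp only [card_product, card_range]
      calc L * (2 * (L + 2)) ≤ K ^ 3 * (K ^ 3 * K ^ 3) := Nat.mul_le_mul this (by nlinarith)
        _ ≤ K ^ 10 := by rw [← pow_add, ← pow_add]; exact Nat.pow_le_pow_right (by omega) (by omega)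
    calc _ ≤ (K ^ 10) ^ K := (Nat.pow_le_pow_left t _).trans (Nat.pow_le_pow_right (by positivity)
          (card_image_le.trans (by simp)))
      _ = (K ^ K) ^ 10 := by rw [← pow_mul, ← pow_mul, mul_comm]
      _ ≤ (n ^ 2) ^ 10 := Nat.pow_le_pow_left ((ff K).trans (Nat.pow_le_pow_left h1 2)) _
      _ = _ := by ring

end Pool.Agent.Results.MP_edde63_nt.Q1
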